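import Pool.Agent.X257.ML.Occ
import Pool.Agent.TH444.ML.Done

/-!
# Malle's conjecture for `C₂ ≀ H` and the inverse Galois problem for `H`
-/

set_option autoImplicit false

open Filter Topology
open Pool.Agent.TH444.ML
open Pool.Agent.TH444.TW (Cls IsTwistedPower twist)
open Pool.Agent.H391R2 (Wr)

namespace Pool.Agent.X257.MQ

/-- an extension with group `C₂ ≀ H` contains an extension with group `H` -/
theorem gal_of_cnt {K : Type} [Field K] [NumberField K] {H : Type} [Group H] [Finite H] {n : ℕ}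
    {G : Subgroup (Equiv.Perm (Fin n))} (hG : IsC2Wr H G) {X : ℝ} (h : (Cnt K G X).Nonempty) :
    (Gal K (AlgebraicClosure K) H).Nonempty := by
  rw [cnt_eq K hG, TT_eq Pool.Agent.TH365.J3099.wrIff] at h
  obtain ⟨L, hL⟩ := h
  obtain ⟨M, -⟩ := Set.mem_iUnion.1 hL
  exact ⟨M.1, M.2⟩

/-- quotients of Galois groups are Galois groups -/
theorem gal_quot {K : Type} [Field K] {Ω : Type} [Field Ω] [Algebra K Ω]
    {H B : Type} [Group H] [Group B] (p : H →* B) (hp : Function.Surjective p)
    (h : (Gal K Ω H).Nonempty) : (Gal K Ω B).Nonempty := by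
  obtain ⟨F, h1, h2, ⟨γ⟩⟩ := h
  let q : (F ≃ₐ[K] F) →* B := p.comp γ.toMonoidHom
  have hq : Function.Surjective q := hp.comp γ.surjective
  let E : IntermediateField K F := IntermediateField.fixedField q.ker
  have hE : IsGalois K E := IsGalois.of_fixedField_normal_subgroup q.ker
  let e : (E ≃ₐ[K] E) ≃* B := (IsGalois.normalAutEquivQuotient q.ker).symm.trans
    (QuotientGroup.quotientKerEquivOfSurjective q hq)
  let ε : E ≃ₐ[K] IntermediateField.lift E := IntermediateField.liftAlgEquiv E
  refine ⟨IntermediateField.lift E, ?_, ?_, ?_⟩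
  · exact Module.Finite.equiv ε.toLinearEquiv
  · exact IsGalois.of_algEquiv ε
  · exact ⟨(AlgEquiv.autCongr ε).symm.trans e⟩

/-- the projection `B × (A ≀ S_m) → B`, followed by an isomorphism, is in the class -/
theorem prod_cls (K : Type) [Field K] (A B : Type) [Group A] [Finite A] [Group B] (m : ℕ)
    (hm : ((3 * Nat.card A + 2).factorial) ^ 3 ≤ m) {W : Type} [Group W] (γ : W ≃* B) :
    Cls K (γ.symm.toMonoidHom.comp (MonoidHom.fst B (Wr A m))) := by
  refine Cls.wreath _ A m hm ⟨1, 1,
    (MonoidHom.inr B (Wr A m)).comp (Pi.evalMonoidHom _ 0),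
    (MonoidHom.inl B (Wr A m)).comp γ.toMonoidHom, ?_, ?_, ?_, ?_⟩
  · intro x y hxy
    funext i
    rw [Subsingleton.elim i 0]
    exact congrArg Prod.snd hxy
  · ext ⟨b, w⟩
    constructor
    · rintro ⟨x, hx⟩
      have h1 : (1 : B) = b := congrArg Prod.fst hx
      rw [MonoidHom.mem_ker]
      change γ.symm b = 1
      rw [← h1, map_one]
    · intro h
      have h1 : γ.symm b = 1 := h
      have h2 : b = 1 := by
        have := congrArg γ h1
        rwa [MulEquiv.apply_symm_apply, map_one] at this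
      exact ⟨fun _ => w, by rw [h2]; rfl⟩
  · intro w
    exact γ.symm_apply_apply w
  · intro w x
    refine Prod.ext ?_ ?_
    · change γ w * 1 = 1 * γ w
      rw [mul_one, one_mul]
    · change 1 * x 0 = twist 1 (x 0) * 1
      rw [mul_one, one_mul]
      rfl

theorem gal_prod (K : Type) [Field K] [NumberField K] (A B : Type) [Group A] [Finite A]
    [Group B] [Finite B] (m : ℕ) (hm : ((3 * Nat.card A + 2).factorial) ^ 3 ≤ m)
    (h : (Gal K (AlgebraicClosure K) B).Nonempty) :
    (Gal K (AlgebraicClosure K) (B × Wr A m)).Nonempty := by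
  obtain ⟨F, h1, h2, ⟨γ⟩⟩ := h
  have hf : Finite (Wr A m) := Pool.Agent.H391R2.T4.finite_wr A m
  exact gal_nonempty K (AlgebraicClosure K) F (B × Wr A m) _ (prod_cls K A B m hm γ)

theorem pow_bound (n : ℕ) (hn : 10 ≤ n) : 16 * n ^ 3 ≤ n.factorial := by
  obtain ⟨m, rfl⟩ := Nat.exists_eq_add_of_le' hn
  induction m with
  | zero => decide
  | succ m ih =>
    have e : (m + 1 + 10).factorial = (m + 11) * (m + 10).factorial := by
      rw [show m + 1 + 10 = (m + 10) + 1 by ring, Nat.factorial_succ]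
    rw [e]
    have : 16 * (m + 1 + 10) ^ 3 ≤ (m + 11) * (16 * (m + 10) ^ 3) := by nlinarith [sq_nonneg m]
    exact this.trans (Nat.mul_le_mul_left _ (ih (by omega)))

/-- a faithful action of `B × (A ≀ S_m)` on few points -/
theorem prod_small (A B : Type) [Group A] [Finite A] [Group B] [Finite B] (m : ℕ)
    (hm : ((3 * Nat.card A + 2).factorial) ^ 3 ≤ m) (hB : Nat.card B ≤ m) :
    ∃ U : Subgroup (B × Wr A m), U.normalCore = ⊥ ∧
      8 * U.index * (U.index + 1) ≤ Nat.card (B × Wr A m) := by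
  have hA : 1 ≤ Nat.card A := Nat.card_pos
  have hb : 1 ≤ Nat.card B := Nat.card_pos
  have hm10 : 10 ≤ m := by
    rcases fact_bound (Nat.card A) with h | h
    · exact h.trans hm
    · omega
  obtain ⟨U, hU, hi⟩ := wr_core A m (by omega)
  refine ⟨(⊥ : Subgroup B).prod U, ?_, ?_⟩
  · rw [eq_bot_iff]
    rintro ⟨a, w⟩ h
    have h1 : ∀ x : B × Wr A m, x * (a, w) * x⁻¹ ∈ (⊥ : Subgroup B).prod U := h
    have ha : a = 1 := by
      have := (h1 1)
      rw [one_mul, inv_one, mul_one] at this
      exact (Subgroup.mem_prod.1 this).1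
    have hw : w ∈ U.normalCore := fun x => (Subgroup.mem_prod.1 (h1 (1, x))).2
    rw [hU] at hw
    rw [ha, show w = 1 from hw]
    exact one_mem _
  · rw [Subgroup.index_prod, Subgroup.index_bot, hi, Nat.card_prod, wr_card]
    set a := Nat.card A
    set b := Nat.card B
    have h1 : 1 ≤ b * (a * m) := Nat.one_le_iff_ne_zero.2 (by positivity)
    have h2 : a ^ 2 ≤ a ^ m := Nat.pow_le_pow_right hA (by omega)
    calc 8 * (b * (a * m)) * (b * (a * m) + 1) ≤ 16 * (b * (a * m)) ^ 2 := by nlinarith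
      _ = b * (a ^ 2 * (16 * (b * m ^ 2))) := by ring
      _ ≤ b * (a ^ 2 * (16 * (m * m ^ 2))) := by gcongr
      _ = b * (a ^ 2 * (16 * m ^ 3)) := by ring
      _ ≤ b * (a ^ m * m.factorial) := by
        gcongr
        exact pow_bound m hm10

theorem two_le_of_small {H : Type} [Group H] [Finite H] {U : Subgroup H}
    (hc : 8 * U.index * (U.index + 1) ≤ Nat.card H) : 2 ≤ Nat.card H := by
  have h1 : U.index ≠ 0 := Subgroup.index_ne_zero_of_finite
  have h3 : 1 ≤ U.index := Nat.pos_of_ne_zero h1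
  nlinarith

end Pool.Agent.X257.MQ
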